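import Pool.Agent.PSS.StmtsS5

/-!
# Squad PSS, block S5, row BPT: every block contains a local idempotent
-/

open scoped BigOperators

noncomputable section

namespace Pool.Agent.PSS.H68

open Pool.Agent.PSS.S5
open Pool.Agent.PFC (Cz)

section fx

variable {F V A : Type} [Field F] [CommGroup V] [Ring A] [Algebra F A]

theorem mem_fx (α : V →* A) (a : A) :
    a ∈ FxR (cw F α) ⊤ ↔ ∀ v, α v * a = a * α v := by
  have key : ∀ v, cw F α v a = α v * a * α v⁻¹ := by
    intro v
    change α v * (a * α v⁻¹) = _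
    rw [mul_assoc]
  constructor
  · intro h v
    have h1 : cw F α v a = a := h v trivial
    rw [key] at h1
    calc α v * a = α v * a * α v⁻¹ * α v := by
          rw [mul_assoc (α v * a), ← map_mul, inv_mul_cancel, map_one, mul_one]
      _ = a * α v := by rw [h1]
  · intro h v _
    change cw F α v a = a
    rw [key, h, mul_assoc, ← map_mul, mul_inv_cancel, map_one, mul_one]

theorem mem_cz (α : V →* A) (a : A) :
    a ∈ Cz F α ⊤ ↔ ∀ v, α v * a = a * α v := by
  constructor
  · intro h v
    exact Subalgebra.mem_centralizer_iff F |>.mp h (α v) ⟨v, trivial, rfl⟩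
  · intro h
    refine (Subalgebra.mem_centralizer_iff F).mpr ?_
    rintro _ ⟨v, _, rfl⟩
    exact h v

theorem mem_fx_cz (α : V →* A) (a : A) : a ∈ FxR (cw F α) ⊤ ↔ a ∈ Cz F α ⊤ := by
  rw [mem_fx, mem_cz]

theorem bkr_bot (α : V →* A) (a : A) (h : a ∈ BKR (cw F α) ⊥) : a = 0 := by
  have h1 : BKR (cw F α) (⊥ : Subgroup V) = ⊥ := by
    unfold BKR
    rw [Submodule.span_eq_bot]
    rintro n ⟨P', S, m, hlt, _⟩
    exact absurd hlt not_lt_bot
  rw [h1] at h
  exact (Submodule.mem_bot F).mp h

/-- the corner of the centraliser -/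
def Dj (F : Type) {V A : Type} [Field F] [CommGroup V] [Ring A] [Algebra F A] (α : V →* A)
    (j : A) : Submodule F A where
  carrier := {x | x ∈ FxR (cw F α) ⊤ ∧ j * x * j = x}
  add_mem' := by
    rintro a b ⟨h1, h2⟩ ⟨h3, h4⟩
    exact ⟨Submodule.add_mem _ h1 h3, by rw [mul_add, add_mul, h2, h4]⟩
  zero_mem' := ⟨Submodule.zero_mem _, by rw [mul_zero, zero_mul]⟩
  smul_mem' := by
    rintro c a ⟨h1, h2⟩
    exact ⟨Submodule.smul_mem _ _ h1, by rw [mul_smul_comm, smul_mul_assoc, h2]⟩

end fx

theorem bpt (hRbk : RbkStmt) (hFit : FitStmt) (hZrt : S0.ZrtStmt) (hBki : S0.BkiStmt) :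
    BptStmt := by
  intro ℓ _ F V E A K _ _ _ _ _ _ _ _ φ α lam x y u hp hCl hRF hu b hb
  haveI := hCl.fin
  classical
  have hC1 : (1 : A) ∈ FxR (cw F α) ⊤ := (mem_fx α 1).mpr (fun v => by rw [mul_one, one_mul])
  have hcen : ∀ z : A, (∀ a, z * a = a * z) → z ∈ FxR (cw F α) ⊤ := fun z hz =>
    (mem_fx α z).mpr (fun v => (hz (α v)).symm)
  have hmul : ∀ a c : A, a ∈ FxR (cw F α) ⊤ → c ∈ FxR (cw F α) ⊤ → a * c ∈ FxR (cw F α) ⊤ := by
    intro a c ha hc
    rw [mem_fx_cz] at ha hc ⊢
    exact Subalgebra.mul_mem _ ha hc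
  -- the relative trace
  set r : A → A := fun a => ∑ k, x k * a * y k with hr
  have hrz : ∀ z a : A, (∀ c, z * c = c * z) → r (z * a) = z * r a := by
    intro z a hz
    simp only [hr]
    rw [Finset.mul_sum]
    refine Finset.sum_congr rfl (fun k _ => ?_)
    rw [← mul_assoc (x k), ← hz (x k)]
    simp only [mul_assoc]
  have hradd : ∀ a c : A, r (a + c) = r a + r c := by
    intro a c
    simp only [hr]
    rw [← Finset.sum_add_distrib]
    refine Finset.sum_congr rfl (fun k _ => ?_)
    rw [mul_add, add_mul]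
  have hrc : ∀ a ∈ FxR (cw F α) ⊤, ∀ c : A, c * r a = r a * c := fun a ha c =>
    hZrt F V A K α lam x y hRF a ha c
  have hr1 : r 1 = ∑ k, x k * y k := by
    simp only [hr, mul_one]
  have hζ : ∀ c : A, c * r 1 = r 1 * c := hrc 1 hC1
  have hu1 : u * r 1 = 1 := by rw [hr1]; exact hu
  have hu2 : r 1 * u = 1 := by rw [← hζ, hu1]
  have huc : ∀ c : A, u * c = c * u := by
    intro c
    calc u * c = u * c * (r 1 * u) := by rw [hu2, mul_one]
      _ = u * (c * r 1) * u := by simp only [mul_assoc]
      _ = (u * r 1) * (c * u) := by rw [hζ]; simp only [mul_assoc]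
      _ = c * u := by rw [hu1, one_mul]
  -- the induction
  have main : ∀ (n : ℕ) (j z : A), Module.finrank F (Dj F α j) = n → j ∈ FxR (cw F α) ⊤ →
      j * j = j → b * j = j → (∀ a, z * a = a * z) → r (z * j) = b →
      ∃ j' z' : A, Loi F α j' ∧ b * j' = j' ∧ (∀ a, z' * a = a * z') ∧ r (z' * j') = b := by
    intro n
    induction n using Nat.strong_induction_on with
    | _ n ih =>
      intro j z hn hjC hjj hbj hz hrj
      have hnz : j ∉ BKR (cw F α) ⊤ := by
        intro hjK
        have h1 : z * j ∈ BKR (cw F α) ⊤ := (hBki F V A α ⊤ z (hcen z hz) j hjK).1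
        have h2 : r (z * j) ∈ BKR (cw F α) ⊤ :=
          hRbk ℓ F V E A K φ α lam x y hp hCl.per hRF (z * j) h1
        rw [hrj] at h2
        have h3 : b ∈ BKR (cw F α) (⊥ : Subgroup V) := by
          refine hCl.blk ⊥ b (hcen b hb.cen) ?_ ?_ h2
          · rw [hb.id, sub_self]
            exact Submodule.zero_mem _
          · intro a _
            rw [hb.cen a, sub_self]
            exact Submodule.zero_mem _
        exact hb.nz (bkr_bot α b h3)
      by_cases hloc : ∀ x ∈ FxR (cw F α) ⊤, IsNilpotent (j * x * j) ∨ ∃ y ∈ FxR (cw F α) ⊤,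
          j * x * j * (j * y * j) = j ∧ j * y * j * (j * x * j) = j
      · exact ⟨j, z, ⟨hjC, hjj, hnz, hloc⟩, hbj, hz, hrj⟩
      · push Not at hloc
        obtain ⟨x0, hx0, hx1, hx2⟩ := hloc
        obtain ⟨j1, hj1C, hj1j1, hjj1, hj1j, hj10, hj1ne⟩ :=
          hFit F A (Cz F α ⊤) j x0 ((mem_fx_cz α j).mp hjC) ((mem_fx_cz α x0).mp hx0) hjj hx1
            (by
              rintro ⟨y0, hy0, hy1, hy2⟩
              exact hx2 y0 ((mem_fx_cz α y0).mpr hy0) hy1 hy2)
        rw [← mem_fx_cz] at hj1C
        have hzC := hcen z hz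
        set j2 := j - j1 with hj2
        have hj2C : j2 ∈ FxR (cw F α) ⊤ := Submodule.sub_mem _ hjC hj1C
        have hj2j2 : j2 * j2 = j2 := by
          rw [hj2, sub_mul, mul_sub, mul_sub, hjj, hjj1, hj1j, hj1j1]
          abel
        have hjj2 : j * j2 = j2 := by rw [hj2, mul_sub, hjj, hjj1]
        have hj2j : j2 * j = j2 := by rw [hj2, sub_mul, hjj, hj1j]
        have hj2ne : j2 ≠ j := by
          intro h
          rw [hj2, sub_eq_self] at h
          exact hj10 h
        -- reduction to one of the two idempotents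
        have red : ∀ j' : A, j' ∈ FxR (cw F α) ⊤ → j' * j' = j' → j * j' = j' → j' * j = j' →
            j' ≠ j → (∃ z', (∀ a, z' * a = a * z') ∧ r (z * j') * z' = b) →
            ∃ j'' z'' : A, Loi F α j'' ∧ b * j'' = j'' ∧ (∀ a, z'' * a = a * z'') ∧
              r (z'' * j'') = b := by
          rintro j' h1 h2 h3 h4 h5 ⟨z', h6, h7⟩
          have hlt : Dj F α j' < Dj F α j := by
            refine lt_of_le_of_ne ?_ ?_
            · rintro a ⟨ha1, ha2⟩
              refine ⟨ha1, ?_⟩
              rw [← ha2]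
              calc j * (j' * a * j') * j = (j * j') * a * (j' * j) := by simp only [mul_assoc]
                _ = j' * a * j' := by rw [h3, h4]
            · intro h
              have h8 : j ∈ Dj F α j := ⟨hjC, by rw [hjj, hjj]⟩
              rw [← h] at h8
              have h9 : j' * j * j' = j := h8.2
              rw [h4, h2] at h9
              exact h5 h9
          have hlt2 : Module.finrank F (Dj F α j') < n := by
            rw [← hn]
            exact Submodule.finrank_lt_finrank_of_lt hlt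
          refine ih _ hlt2 j' (z' * z) rfl h1 h2 ?_ ?_ ?_
          · rw [← h3, ← mul_assoc, hbj]
          · intro a
            rw [mul_assoc, hz a, ← mul_assoc, h6 a, mul_assoc]
          · rw [mul_assoc, hrz z' _ h6, h6, h7]
        have hb1 : ∀ j' : A, j' ∈ FxR (cw F α) ⊤ → j * j' = j' → r (z * j') * b = r (z * j') := by
          intro j' _ h3
          have h4 : b * j' = j' := by rw [← h3, ← mul_assoc, hbj]
          rw [← hb.cen, ← hrz b _ hb.cen, ← mul_assoc, ← hz b, mul_assoc, h4]
        have hz1c : ∀ a, r (z * j1) * a = a * r (z * j1) := fun a =>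
          (hrc (z * j1) (hmul z j1 hzC hj1C) a).symm
        have hz2c : ∀ a, r (z * j2) * a = a * r (z * j2) := fun a =>
          (hrc (z * j2) (hmul z j2 hzC hj2C) a).symm
        have hsum : r (z * j1) + r (z * j2) = b := by
          rw [← hradd, ← mul_add, hj2, add_sub_cancel, hrj]
        rcases hb.loc _ hz1c with h1 | ⟨z', h6, h7⟩
        · rcases hb.loc _ hz2c with h2 | ⟨z', h6, h7⟩
          · exfalso
            rw [hb1 j1 hj1C hjj1] at h1
            rw [hb1 j2 hj2C hjj2] at h2
            have h3 : IsNilpotent (r (z * j1) + r (z * j2)) :=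
              Commute.isNilpotent_add (hz1c _) h1 h2
            rw [hsum] at h3
            obtain ⟨m, hm⟩ := h3
            have h4 : IsIdempotentElem b := hb.id
            rcases Nat.eq_zero_or_pos m with h0 | h0
            · rw [h0, pow_zero] at hm
              have h5 : b = 0 := by rw [← mul_one b, hm, mul_zero]
              exact hb.nz h5
            · rw [h4.pow_eq h0.ne'] at hm
              exact hb.nz hm
          · rw [hb1 j2 hj2C hjj2] at h7
            exact red j2 hj2C hj2j2 hjj2 hj2j hj2ne ⟨z', h6, h7⟩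
        · rw [hb1 j1 hj1C hjj1] at h7
          exact red j1 hj1C hj1j1 hjj1 hj1j hj1ne ⟨z', h6, h7⟩
  have hub : r (u * b) = b := by
    rw [hrz u b huc, ← mul_one b, hrz b 1 hb.cen, ← mul_assoc, huc b, mul_assoc, hu1, mul_one]
  obtain ⟨j, z, hj, hbj, hz, hrj⟩ := main _ b u rfl (hcen b hb.cen) hb.id hb.id huc hub
  refine ⟨j, z, hj, hbj, hcen z hz, ?_⟩
  change r (j * z * j) = b
  rw [← hz j, mul_assoc, hj.id]
  exact hrj

end Pool.Agent.PSS.H68
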