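import Pool.Agent.PSS.StmtsS5

/-!
# Squad PSS, block S5, row COE: existence of corners
-/

noncomputable section

namespace Pool.Agent.PSS.H68

open Pool.Agent.PSS.S5

section corner

variable {F A : Type} [Field F] [Ring A] [Algebra F A]

/-- the corner `j A j` as a subspace -/
def crn (F : Type) {A : Type} [Field F] [Ring A] [Algebra F A] (j : A) : Submodule F A where
  carrier := {a | j * a = a ∧ a * j = a}
  add_mem' := by
    rintro a b ⟨h1, h2⟩ ⟨h3, h4⟩
    exact ⟨by rw [mul_add, h1, h3], by rw [add_mul, h2, h4]⟩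
  zero_mem' := ⟨mul_zero _, zero_mul _⟩
  smul_mem' := by
    rintro c a ⟨h1, h2⟩
    exact ⟨by rw [mul_smul_comm, h1], by rw [smul_mul_assoc, h2]⟩

theorem crn_mul {j a b : A} (ha : a ∈ crn F j) (hb : b ∈ crn F j) : a * b ∈ crn F j :=
  ⟨by rw [← mul_assoc, ha.1], by rw [mul_assoc, hb.2]⟩

/-- the ring structure of the corner -/
@[reducible] def crnRing (j : A) (hj : j * j = j) : Ring (crn F j) :=
  { (inferInstance : AddCommGroup (crn F j)) with
    mul := fun a b => ⟨a.1 * b.1, crn_mul a.2 b.2⟩
    one := ⟨j, hj, hj⟩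
    mul_assoc := fun a b c => Subtype.ext (mul_assoc a.1 b.1 c.1)
    one_mul := fun a => Subtype.ext a.2.1
    mul_one := fun a => Subtype.ext a.2.2
    left_distrib := fun a b c => Subtype.ext (mul_add a.1 b.1 c.1)
    right_distrib := fun a b c => Subtype.ext (add_mul a.1 b.1 c.1)
    zero_mul := fun a => Subtype.ext (zero_mul a.1)
    mul_zero := fun a => Subtype.ext (mul_zero a.1) }

end corner

theorem coe : CoeStmt := by
  intro F V A _ _ _ _ α j hj hc
  letI := crnRing (F := F) j hj
  letI : Algebra F (crn F j) := Algebra.ofModule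
    (fun r x y => Subtype.ext (smul_mul_assoc r x.1 y.1))
    (fun r x y => Subtype.ext (mul_smul_comm r x.1 y.1))
  have hmem : ∀ v, α v * j ∈ crn F j := by
    intro v
    exact ⟨by rw [← mul_assoc, ← hc, mul_assoc, hj], by rw [mul_assoc, hj]⟩
  let αY : V →* crn F j :=
    { toFun := fun v => ⟨α v * j, hmem v⟩
      map_one' := Subtype.ext (by
        change α 1 * j = j
        rw [map_one, one_mul])
      map_mul' := fun u v => Subtype.ext (by
        change α (u * v) * j = α u * j * (α v * j)
        rw [map_mul, mul_assoc (α u), mul_assoc (α u), ← mul_assoc j, ← hc v,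
          mul_assoc (α v), hj]) }
  refine ⟨crn F j, inferInstance, inferInstance, αY, (crn F j).subtype, ?_⟩
  exact
    { inj := Subtype.coe_injective
      mul := fun a b => rfl
      one := rfl
      ran := fun a h1 h2 => ⟨⟨a, h1, h2⟩, rfl⟩
      cov := fun v => rfl }

end Pool.Agent.PSS.H68
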