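import Pool.Agent.PSS.StmtsS2

/-!
# Squad PSS, row SPI
-/

open scoped BigOperators Polynomial

noncomputable section

namespace Pool.Agent.PSS.H68

open Pool.Agent.PSS.S2
open Polynomial

theorem spi_dvd {F : Type} [Field F] (T : Finset F) (f : F[X]) (h : ∀ t ∈ T, f.eval t = 0) :
    (∏ t ∈ T, (X - C t)) ∣ f := by
  classical
  refine Finset.prod_dvd_of_coprime ?_ ?_
  · intro i _ j _ hij
    exact pairwise_coprime_X_sub_C (s := fun t : F => t) Function.injective_id hij
  · intro t ht
    exact dvd_iff_isRoot.mpr (h t ht)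

theorem spi_interp {F A : Type} [Field F] [Ring A] [Algebra F A] (T : Finset F) (s : A)
    (hs : aeval s (∏ t ∈ T, (X - C t)) = 0) [DecidableEq F] :
    (s = ∑ t ∈ T, t • aeval s (Lagrange.basis T id t)) ∧
      ∀ t ∈ T, aeval s (Lagrange.basis T id t) * aeval s (Lagrange.basis T id t) =
        aeval s (Lagrange.basis T id t) := by
  have hev : ∀ i ∈ T, ∀ t ∈ T, (Lagrange.basis T id i).eval t = if i = t then 1 else 0 := by
    intro i hi t ht
    split_ifs with h
    · subst h
      exact Lagrange.eval_basis_self (v := id) (Function.injective_id.injOn) hi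
    · exact Lagrange.eval_basis_of_ne (v := id) h ht
  have key : ∀ f : F[X], (∀ t ∈ T, f.eval t = 0) → aeval s f = 0 := by
    intro f hf
    obtain ⟨g, hg⟩ := spi_dvd T f hf
    rw [hg, map_mul, hs, zero_mul]
  constructor
  · have h := key (X - ∑ t ∈ T, C t * Lagrange.basis T id t) (by
      intro t ht
      rw [eval_sub, eval_X, eval_finsetSum]
      simp only [eval_mul, eval_C]
      rw [Finset.sum_congr rfl (fun i hi => by rw [hev i hi t ht])]
      simp [ht])
    rw [map_sub, aeval_X, sub_eq_zero, map_sum] at h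
    refine h.trans (Finset.sum_congr rfl ?_)
    intro t _
    rw [map_mul, aeval_C, ← Algebra.smul_def]
  · intro i hi
    have h := key (Lagrange.basis T id i * Lagrange.basis T id i - Lagrange.basis T id i) (by
      intro t ht
      rw [eval_sub, eval_mul, hev i hi t ht]
      split_ifs <;> simp)
    rw [map_sub, map_mul, sub_eq_zero] at h
    exact h

theorem spi_jc {F A : Type} [Field F] [IsAlgClosed F] [Ring A] [Algebra F A]
    [FiniteDimensional F A] (a : A) :
    ∃ (T : Finset F) (g : F[X]), aeval (aeval a g) (∏ t ∈ T, (X - C t)) = 0 ∧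
      IsNilpotent (a - aeval a g) := by
  classical
  have hint : IsIntegral F a := Algebra.IsIntegral.isIntegral a
  set p := minpoly F a with hp
  have hp0 : p ≠ 0 := minpoly.ne_zero hint
  have hmon : p.Monic := minpoly.monic hint
  set T := p.roots.toFinset with hT
  set q : F[X] := ∏ t ∈ T, (X - C t) with hq
  have hspl : p = (p.roots.map (fun t => X - C t)).prod :=
    (IsAlgClosed.splits p).eq_prod_roots_of_monic hmon
  have hdvd : p ∣ q ^ p.natDegree := by
    have h1 : p = ∏ t ∈ T, (X - C t) ^ p.roots.count t := by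
      conv_lhs => rw [hspl]
      rw [Finset.prod_multiset_map_count]
    rw [hq, ← Finset.prod_pow]
    conv_lhs => rw [h1]
    refine Finset.prod_dvd_prod_of_dvd _ _ ?_
    intro t _
    refine pow_dvd_pow _ ?_
    exact (Multiset.count_le_card _ _).trans (card_roots' p)
  have hx : ∀ f : F[X], aeval (AdjoinRoot.root p) f = AdjoinRoot.mk p f := fun f =>
    AdjoinRoot.aeval_eq f
  have hnil : IsNilpotent (aeval (AdjoinRoot.root p) q) := by
    refine ⟨p.natDegree, ?_⟩
    rw [← map_pow, hx, AdjoinRoot.mk_eq_zero]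
    exact hdvd
  have hsep : q.Separable := by
    rw [hq]
    exact separable_prod_X_sub_C_iff'.mpr (fun x _ y _ h => h)
  have hunit : IsUnit (aeval (AdjoinRoot.root p) (derivative q)) := by
    obtain ⟨u, v, huv⟩ := hsep
    have h := congrArg (aeval (AdjoinRoot.root p)) huv
    rw [map_add, map_mul, map_mul, map_one] at h
    have h2 : aeval (AdjoinRoot.root p) v * aeval (AdjoinRoot.root p) (derivative q) =
        1 - aeval (AdjoinRoot.root p) u * aeval (AdjoinRoot.root p) q := by
      linear_combination h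
    have h3 : IsUnit (aeval (AdjoinRoot.root p) v * aeval (AdjoinRoot.root p) (derivative q)) := by
      rw [h2]
      exact (Commute.isNilpotent_mul_left (Commute.all _ _) hnil).isUnit_one_sub
    exact isUnit_of_mul_isUnit_right h3
  obtain ⟨r, ⟨hr1, hr2⟩, -⟩ := existsUnique_nilpotent_sub_and_aeval_eq_zero hnil hunit
  obtain ⟨g, rfl⟩ := AdjoinRoot.mk_surjective r
  have hmk : ∀ f : F[X], AdjoinRoot.mk p f = 0 → aeval a f = 0 := by
    intro f hf
    obtain ⟨k, hk⟩ := AdjoinRoot.mk_eq_zero.mp hf
    rw [hk, map_mul, hp, minpoly.aeval, zero_mul]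
  refine ⟨T, g, ?_, ?_⟩
  · rw [← hq, ← aeval_comp]
    refine hmk _ ?_
    rw [← hx, aeval_comp, hx]
    exact hr2
  · obtain ⟨n, hn⟩ := hr1
    refine ⟨n, ?_⟩
    have h1 : AdjoinRoot.mk p ((X - g) ^ n) = 0 := by
      rw [map_pow, map_sub, AdjoinRoot.mk_X]
      exact hn
    have h2 := hmk _ h1
    rw [map_pow, map_sub, aeval_X] at h2
    exact h2

theorem spi : SpiStmt := by
  intro F A _ _ _ _ _ a
  classical
  obtain ⟨T, g, hT, hnil⟩ := spi_jc (F := F) a
  obtain ⟨h1, h2⟩ := spi_interp T (aeval a g) hT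
  refine ⟨T.card, fun i => (T.equivFin.symm i : F),
    fun i => aeval (aeval a g) (Lagrange.basis T id (T.equivFin.symm i : F)), a - aeval a g,
    ?_, ?_, hnil, ?_⟩
  · have h3 : ∑ i : Fin T.card, (T.equivFin.symm i : F) •
        aeval (aeval a g) (Lagrange.basis T id (T.equivFin.symm i : F)) = aeval a g := by
      rw [T.equivFin.symm.sum_comp (fun t : T => (t : F) •
        aeval (aeval a g) (Lagrange.basis T id (t : F)))]
      conv_rhs => rw [h1]
      exact Finset.sum_coe_sort T (fun t => t • aeval (aeval a g) (Lagrange.basis T id t))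
    rw [h3]
    abel
  · intro i
    refine ⟨h2 _ (T.equivFin.symm i).2, ?_⟩
    change aeval (aeval a g) (Lagrange.basis T id (T.equivFin.symm i : F)) ∈ _
    rw [← aeval_comp]
    exact aeval_mem_adjoin_singleton F a
  · exact Subalgebra.sub_mem _ (Algebra.subset_adjoin rfl) (aeval_mem_adjoin_singleton F a)

end Pool.Agent.PSS.H68
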