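import Pool.Agent.PSS.StmtsS2

/-!
# Squad PSS, row TRC
-/

open scoped BigOperators

noncomputable section

namespace Pool.Agent.PSS.H68

open Pool.Agent.PSS.S2

theorem cg_chi_one {R V A : Type} [CommRing R] [CommGroup V] [Ring A] [Algebra R A]
    {q : R} {α : V →* A} {χ : V → R} {N : A →ₗ[R] A} (hN : Cn q α χ N) : ∃ d, χ 1 = q * d := by
  obtain ⟨d, hd⟩ := hN.add 1 1
  refine ⟨-d, ?_⟩
  rw [mul_one, smul_eq_mul] at hd
  linear_combination -hd

theorem cg_chi_inv {R V A : Type} [CommRing R] [CommGroup V] [Ring A] [Algebra R A]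
    {q : R} {α : V →* A} {χ : V → R} {N : A →ₗ[R] A} (hN : Cn q α χ N) (z : V)
    (hz : Cg q (χ z) 1) : ∃ d, χ z⁻¹ = -1 + q * d := by
  obtain ⟨d, hd⟩ := hN.add z⁻¹ z
  obtain ⟨d1, hd1⟩ := cg_chi_one hN
  obtain ⟨d2, hd2⟩ := hz
  refine ⟨d1 - d2 - d, ?_⟩
  rw [inv_mul_cancel, smul_eq_mul] at hd
  rw [smul_eq_mul] at hd2
  linear_combination hd1 - hd2 - hd

theorem trc (hD : DtrStmt) : TrcStmt := by
  intro R V A K _ _ _ _ _ _ q α z lam x y χ N hRF hN hz a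
  obtain ⟨dz, hdz⟩ := cg_chi_inv hN z hz
  set g : A →ₗ[R] A := (LinearMap.mulRight R (1 - α z⁻¹)).comp (LinearMap.mulLeft R a) with hg
  have hga : ∀ b, g b = a * b * (1 - α z⁻¹) := fun b => rfl
  have hcomm : ∀ v, α v * (1 - α z⁻¹) = (1 - α z⁻¹) * α v := by
    intro v
    rw [mul_sub, sub_mul, mul_one, one_mul, ← map_mul, ← map_mul, mul_comm]
  have hgl : RLq q α g := by
    intro b v
    refine ⟨0, ?_⟩
    rw [smul_zero, sub_eq_zero, hga, hga, ← mul_assoc a b, mul_assoc (a * b), hcomm, ← mul_assoc]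
  obtain ⟨d0, hd0⟩ := hD R V A K q α lam x y χ N g hRF hN hgl
  choose e he using fun k => hN.lin (a * x k) z⁻¹
  have h1 : ∀ k, N (g (x k)) - g (N (x k)) =
      (N (a * x k) - a * N (x k)) * (1 - α z⁻¹) - χ z⁻¹ • (a * x k * α z⁻¹) - q • e k := by
    intro k
    rw [← he k, hga, hga, mul_sub, mul_one, map_sub]
    noncomm_ring
  have h2 : ∀ k, lam (y k * (N (g (x k)) - g (N (x k)))) =
      lam ((N (a * x k) - a * N (x k)) * ((1 - α z⁻¹) * y k)) -
        χ z⁻¹ * lam (a * (x k * α z⁻¹ * y k)) - q * lam (y k * e k) := by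
    intro k
    rw [h1 k, mul_sub, mul_sub, map_sub, map_sub, mul_smul_comm, mul_smul_comm, map_smul, map_smul,
      smul_eq_mul, smul_eq_mul, hRF.sym (y k) _, hRF.sym (y k) (a * x k * α z⁻¹)]
    simp only [mul_assoc]
  rw [sub_zero, Finset.sum_congr rfl (fun k _ => h2 k), Finset.sum_sub_distrib,
    Finset.sum_sub_distrib, ← Finset.mul_sum, ← Finset.mul_sum, ← map_sum, ← map_sum,
    ← Finset.mul_sum, ← gz_apply] at hd0
  refine ⟨d0 + ∑ k, lam (y k * e k) + dz * lam (a * rt x y (α z⁻¹)), ?_⟩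
  have h3 : rt x y (α z⁻¹) = ∑ k, x k * α z⁻¹ * y k := by
    simp [rt]
  rw [h3]
  rw [smul_eq_mul] at hd0 ⊢
  rw [hdz] at hd0
  linear_combination hd0

end Pool.Agent.PSS.H68
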